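import Pool.Agent.Q103.SF.Fin2

/-!
# Subvarieties of varieties which carry a map with many preperiodic points

If a projective variety `X` carries a map with many preperiodic points and generically finite moduli
map, then off a proper closed subset `Z` all the closed subvarieties of `X` carry such a map, so they
are themselves hyperbolic modulo proper closed subsets. For the closed surfaces in `X` (where `X` may
have any dimension) all the special sets are determined.
-/

set_option autoImplicit false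
set_option linter.overlappingInstances false

namespace Pool.Agent.U173.MP

open FF Polynomial Metric
open Pool.Agent.W602.GT
open Pool.Agent.Q41.SU
open Pool.Agent.Q41.GT
open Pool.Agent.TH466.QG (SubOf adjoin_norm)
open Pool.Agent.Q103.EC
open Pool.Agent.Q103.SF
open Pool.Agent.Y216 (OnVar)
open Pool.Agent.W603.LV (canDeg)

/-- the exceptional set can be enlarged -/
theorem enlarge {M : ℕ} {L : Type} [Field L] [Algebra ℂ L] {x : Fin (M + 1) → L}
    {R S : MvPolynomial (Fin (M + 1)) ℂ} (h : HypOff x R) (hS : IsForm S) (hxS : val x S ≠ 0) :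
    HypOff x (R * S) := by
  refine ⟨isForm_mul h.form hS, ?_, ?_, ?_, ?_, ?_, ?_, ?_, ?_, ?_⟩
  · rw [val_mul']
    exact mul_ne_zero h.ne hxS
  · intro E _ _ w z hz hR hw htr
    rw [val_mul'] at hR
    exact h.sub E w z hz (left_ne_zero_of_mul hR) hw htr
  · intro f hf t ht
    rw [map_mul, h.disc f hf t ht, zero_mul]
  · intro f hf t
    rw [map_mul, h.curve f hf t, zero_mul]
  · intro g u hu t
    rw [map_mul, h.mero g u hu t, zero_mul]
  · intro f hf t ht
    rw [map_mul, h.torus f hf t ht, zero_mul]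
  · intro E _ _ _ c a ha hR
    rw [val_mul'] at hR
    exact h.pointed E c a ha (left_ne_zero_of_mul hR)
  · obtain ⟨A, hA⟩ := h.degree
    refine ⟨A, fun E _ _ _ f hf hR => ?_⟩
    rw [val_mul'] at hR
    exact hA E f hf (left_ne_zero_of_mul hR)
  · intro a b ha hb hab hR
    refine h.kobayashi a b ha hb hab ?_
    rcases hR with hR | hR
    · rw [map_mul] at hR
      exact Or.inl (left_ne_zero_of_mul hR)
    · rw [map_mul] at hR
      exact Or.inr (left_ne_zero_of_mul hR)

/-- **Hereditary hyperbolicity.** Projective varieties which carry a map with many preperiodic points: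
off one proper closed subset `Z = {R = 0}` the variety is hyperbolic, and each closed subvariety which
is not contained in `Z` is hyperbolic off a proper closed subset of its own. -/
theorem hyp_sub (d : ℕ) (hd : 2 ≤ d) : ∃ B : ℕ, ∀ (K : Type) [Field K] [Algebra ℂ K] (p q : K[X]),
    ManyPrep ℂ d B p q →
    (∀ w : ℕ, 1 ≤ w → Algebra.trdeg ℂ K = w → GeneralType ℂ K w) ∧
      ∀ (M : ℕ) (x : Fin (M + 1) → K), x ≠ 0 → coords ℂ x = ⊤ → ∃ R, HypOff x R ∧
        ∀ (E : Type) [Field E] [Algebra ℂ E] (z : Fin (M + 1) → E), SubOf ℂ x z → val z R ≠ 0 →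
          ∃ R', HypOff z R' := by
  obtain ⟨B, hB⟩ := hyp_crs d hd
  refine ⟨max B (3 * d + 7), fun K _ _ p q h => ?_⟩
  have : CharZero K := charZero_of_injective_algebraMap (algebraMap ℂ K).injective
  obtain ⟨p', q', P', hp', hq', hpq', hst, hc, halg⟩ := exists_stab hd (le_max_right _ _) h
  obtain ⟨h1, h2⟩ := hB K p' q' hp' hq' hpq' P' hst (le_trans (le_max_left _ _) hc) halg
  refine ⟨h1, fun M x hx hgen => ?_⟩
  obtain ⟨R1, hR1⟩ := h2 M x hx hgen
  obtain ⟨R2, N, e, g, hR2, hxR2, -, -, -, hmain⟩ :=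
    b_var ℂ K M x hx hgen d p' q' (by omega) hp' hq' hpq' P' hst halg
  refine ⟨R1 * R2, enlarge hR1 hR2 hxR2, ?_⟩
  intro E _ _ z hz hzR
  rw [val_mul'] at hzR
  obtain ⟨p1, q1, P1, hp1, hq1, hpq1, hst1, hc1, -, -, hal⟩ :=
    hmain E z hz.spec (right_ne_zero_of_mul hzR)
  obtain ⟨j, hj'⟩ := Function.ne_iff.1 hz.ne
  have hj : z j ≠ 0 := hj'
  have hgen' := adjoin_norm hz.gen hj
  exact (hB E p1 q1 hp1 hq1 hpq1 P1 hst1 (by
    rw [hc1]
    exact le_trans (le_max_left _ _) hc)
    (Pool.Agent.TH466.QG.alg_over (E := E) (K := E) hgen' _ (fun m => hal m j hj))).2 M z hz.ne hz.gen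

/-- the curves of small genus lie in the exceptional set -/
theorem low_mem {M : ℕ} {K E : Type} [Field K] [Algebra ℂ K] [Field E] [Algebra ℂ E]
    {x : Fin (M + 1) → K} {z : Fin (M + 1) → E} (hz : SubOf ℂ x z)
    {R : MvPolynomial (Fin (M + 1)) ℂ} (hR : HypOff x R) :
    ∀ V ∈ lowCurves z, R ∈ V := by
  rintro V ⟨L, _, _, _, v, hv, hgen, hc, rfl⟩
  refine ⟨hR.form, ?_⟩
  by_contra hne
  have h1 := hR.sub L 1 v ⟨by
    obtain ⟨j, hj⟩ := hv.1
    intro h
    exact hj (congrFun h j), hgen, fun G hG hGx => hv.2 G hG (hz.spec G hG hGx)⟩ hne le_rfl (by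
      rw [IsFF.trdeg (k := ℂ) (K := L)]
      simp)
  have h2 := pos_of_gt h1
  omega

/-- **Surfaces in varieties which carry a map with many preperiodic points.** -/
theorem surf_sub (d : ℕ) (hd : 2 ≤ d) : ∃ B : ℕ, ∀ (K : Type) [Field K] [Algebra ℂ K] (p q : K[X]),
    ManyPrep ℂ d B p q → ∀ (M : ℕ) (x : Fin (M + 1) → K), x ≠ 0 → coords ℂ x = ⊤ →
    ∃ R : MvPolynomial (Fin (M + 1)) ℂ, IsForm R ∧ val x R ≠ 0 ∧
      ∀ (E : Type) [Field E] [Algebra ℂ E] (z : Fin (M + 1) → E), SubOf ℂ x z → val z R ≠ 0 →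
        Algebra.trdeg ℂ E = (2 : ℕ) → GeneralType ℂ E 2 ∧ SpecialSets z ∧
          (∀ V ∈ lowCurves z, R ∈ V) ∧
          List.TFAE [KobayashiHyp z, BrodyHyp z, PicardHyp z, NoMero z, NoElliptic z, AlgHyp z,
            AllGeneral z, GeomHyp z, lowCurves z = ∅] := by
  obtain ⟨B, hB⟩ := hyp_sub d hd
  refine ⟨B, fun K _ _ p q h M x hx hgen => ?_⟩
  obtain ⟨-, h2⟩ := hB K p q h
  obtain ⟨R, hR, hsub⟩ := h2 M x hx hgen
  refine ⟨R, hR.form, hR.ne, ?_⟩
  intro E _ _ z hz hzR htr
  obtain ⟨R', hR'⟩ := hsub E z hz hzR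
  have hs : SpecialSets z := special Pool.Agent.Q95.SF.wei htr hz.ne hz.gen hR'
  exact ⟨hR.sub E 2 z hz hzR (by norm_num) (by exact_mod_cast htr), hs, low_mem hz hR,
    tfae Pool.Agent.Q95.SF.wei Pool.Agent.Q239.SF.ptd Pool.Agent.Q239.SF.kob hs⟩

end Pool.Agent.U173.MP
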